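import Mathlib
import Pool.Agent.Helper43.Gm.Defs
import Pool.Agent.Lead.RwMain

/-!
The row game with equal multiplicities, natural values included: definitions.

`N` points of multiplicity `μ`, rows `0, …, R - 1`, the row `y` has length `y + 1`. `κ y` is the number
of old points at the row `y`, `x y` is what the moving point `κ y` gives to the row `y`; a point which
has not started gives its natural value `na μ R y` (`μ` to the last row, `μ - 1` to the row before, …).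
-/

set_option autoImplicit false

namespace Pool.Agent.Helper43.Hw

open Finset
open Pool.Agent.Helper43.Gm (st mv nn Run Pri)

/-- triangular numbers -/
def T (k : ℕ) : ℕ := k * (k + 1) / 2

theorem two_T (k : ℕ) : 2 * T k = k * (k + 1) :=
  Nat.mul_div_cancel' (Nat.even_mul_succ_self k).two_dvd

theorem T_zero : T 0 = 0 := rfl

theorem T_succ (k : ℕ) : T (k + 1) = T k + (k + 1) := by
  have h1 := two_T k
  have h2 := two_T (k + 1)
  nlinarith

theorem T_mono {a b : ℕ} (h : a ≤ b) : T a ≤ T b := by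
  have h1 := two_T a
  have h2 := two_T b
  have h3 : a * (a + 1) ≤ b * (b + 1) := Nat.mul_le_mul h (by omega)
  omega

theorem T_choose (k : ℕ) : T k = (k + 1).choose 2 := by
  rw [Nat.choose_two_right, T]
  simp [mul_comm]

/-- natural value of a point at the row `y` -/
def na (μ R y : ℕ) : ℕ := μ + 1 + y - R

/-- what the point `c` gives to the row `z` -/
def va (μ R : ℕ) (κ x : ℕ → ℕ) (c z : ℕ) : ℕ :=
  if κ z < c then na μ R z else nn κ x (fun _ => μ) c z

/-- the load of the row `z` -/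
def lz (μ R N : ℕ) (κ x : ℕ → ℕ) (z : ℕ) : ℕ := ∑ c ∈ range N, va μ R κ x c z

/-- a play -/
structure Play (μ R N : ℕ) (κ x : ℕ → ℕ) : Prop where
  mono : ∀ y, y + 1 < R → κ y ≤ κ (y + 1)
  le : ∀ y < R, κ y ≤ N
  lt : ∀ y, y + 1 < R → x y < μ
  nat : ∀ y < R, κ y < N → na μ R y ≤ x y
  fin : ∀ y < R, κ y = N → x y = 0
  inc : ∀ y, y + 1 < R → 0 < x y → κ (y + 1) = κ y → x y < x (y + 1)
  lastκ : κ (R - 1) = κ (R - 2)
  lastx : κ (R - 1) < N → x (R - 1) = μ

/-- number of the points started at the row `y` -/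
def aa (κ x : ℕ → ℕ) (y : ℕ) : ℕ := κ y + (if 0 < x y then 1 else 0)

/-- the first row at which `c` has started (it is moving or old); `R` if there is none -/
def ac (R : ℕ) (κ x : ℕ → ℕ) (c : ℕ) : ℕ := ((range R).filter (fun y => aa κ x y ≤ c)).card

/-- the first row at which `c` is old; `R` if there is none -/
def sc (R : ℕ) (κ : ℕ → ℕ) (c : ℕ) : ℕ := ((range R).filter (fun y => κ y ≤ c)).card

/-- number of the old points alive at the row `y` -/
def oo (μ R : ℕ) (κ x : ℕ → ℕ) (y : ℕ) : ℕ :=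
  ((range (κ y)).filter (fun c => 0 < va μ R κ x c y)).card

/-- number of the skips of old points between the rows `y` and `y + 1` -/
def sk (μ : ℕ) (κ x : ℕ → ℕ) (y : ℕ) : ℕ :=
  ((range y).filter (fun t => κ t < κ y ∧ 0 < x t ∧ μ + t = x t + y)).card

/-- the row `R - U t` is the one skipped because of the moving row `t` -/
def U (μ R : ℕ) (x : ℕ → ℕ) (t : ℕ) : ℕ := R + x t - (t + 1 + μ)

/-- the sum of `T` (distance from the death to the last row) over the old points alive at `y` -/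
def Dd (μ R : ℕ) (κ x : ℕ → ℕ) (y : ℕ) : ℕ :=
  ∑ c ∈ (range (κ y)).filter (fun c => 0 < va μ R κ x c y), T (R - 1 - μ - ac R κ x c)

/-- the pending skips of old points at the row `y`, weighted -/
def Sd (μ R : ℕ) (κ x : ℕ → ℕ) (y : ℕ) : ℕ :=
  ∑ t ∈ (range y).filter (fun t => κ t < κ y ∧ 0 < x t ∧ U μ R x t ≤ R - 1 - y), U μ R x t

/-- number of pending skips at the row `y` of all points moving before `y` -/
def Pn (μ R : ℕ) (x : ℕ → ℕ) (y : ℕ) : ℕ :=
  ((range y).filter (fun t => 0 < x t ∧ 0 < U μ R x t ∧ U μ R x t ≤ R - 1 - y)).card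

/-- the next value of the moving point if nothing is done -/
def nx (μ R : ℕ) (x : ℕ → ℕ) (y : ℕ) : ℕ := if 0 < x y then x y + 1 else na μ R (y + 1)

/-- the load of the row `y + 1` if nothing is done (`κ y < N`) -/
def bb (μ R N : ℕ) (κ x : ℕ → ℕ) (y : ℕ) : ℕ :=
  ∑ c ∈ range (κ y), va μ R κ x c (y + 1) + (N - 1 - κ y) * na μ R (y + 1) + nx μ R x y

/-- the greedy rule on the rows `0, …, R - 2` -/
def Greedy (μ R N : ℕ) (κ x : ℕ → ℕ) : Prop :=
  lz μ R N κ x 0 = 1 ∧ ∀ y, y + 2 < R → κ y < N →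
    (y + 2 ≤ bb μ R N κ x y ∧ lz μ R N κ x (y + 1) = bb μ R N κ x y ∧
      ((κ (y + 1) = κ y ∧ x (y + 1) = nx μ R x y) ∨
        (κ (y + 1) = κ y + 1 ∧ nx μ R x y = μ ∧ (κ (y + 1) < N → x (y + 1) = na μ R (y + 1))))) ∨
    (bb μ R N κ x y < y + 2 ∧
      (lz μ R N κ x (y + 1) = y + 2 ∨ (κ (y + 1) = N ∧ lz μ R N κ x (y + 1) ≤ y + 2)))

/-- the rows `0, …, Y` are exactly filled and some point has not become old -/
def Exact (μ R N : ℕ) (κ x : ℕ → ℕ) (Y : ℕ) : Prop :=
  Y < R ∧ κ Y < N ∧ ∀ z ≤ Y, lz μ R N κ x z = z + 1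

/-- number of the points started in the rows `J - X + 1, …, J`, where `J = R - 1 - μ` -/
def np (μ R N : ℕ) (κ x : ℕ → ℕ) (X : ℕ) : ℕ :=
  ((range N).filter (fun c => R - 1 - μ < ac R κ x c + X ∧ ac R κ x c ≤ R - 1 - μ)).card

/-- the common hypotheses of the packets H10, H10a, H10b (`w = R - 1 - y`) -/
structure Zon (μ R N l L : ℕ) (κ x : ℕ → ℕ) (y : ℕ) : Prop where
  μ1 : 1 ≤ μ
  l1 : 1 ≤ l
  lo : 2 * μ ^ 2 ≤ l * R
  hi : l * R ≤ 60 * μ ^ 2
  big : 100 * μ ≤ R
  hL : 151 * μ + 2 * l < 2 ^ L * l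
  play : Play μ R N κ x
  ex : Exact μ R N κ x y
  zo : R ≤ y + 1 + μ
  y2 : y + 2 ≤ R
  w1 : 1500000 * l * L ≤ R - 1 - y
  w2 : 61000 * μ ≤ (R - 1 - y) ^ 2
  w3 : 48 * l * |(T R : ℤ) - N * T μ| ≤ ((R - 1 - y : ℕ) : ℤ) ^ 3
  ih : ∀ z < y, R ≤ z + 1 + μ →
    (R - 1 - z) + 24 * l * (N - 1 - κ z) ≤ 24 * l * oo μ R κ x z

end Pool.Agent.Helper43.Hw
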