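import Mathlib
import Pool.Agent.Helper43.Hw.Defs

/-!
Statements of the packets (MP_d3128a_ag, equal multiplicities). Everywhere `J = R - 1 - μ` (so that
`na y = y - J` for `y ≥ J`, and `na y = 0` for `y ≤ J`; `y ≥ J` is written `R ≤ y + 1 + μ`),
`w = R - 1 - y` is the distance of the row `y` to the last row, `f = N - 1 - κ y`.
All statements have been tested by computer on several thousand random plays.
-/

set_option autoImplicit false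

namespace Pool.Agent.Helper43.Hw

open Finset
open Pool.Agent.Helper43.Gm (st mv nn Run Pri)

/-- H1 (old points). `κ` and `aa` are monotone on `[0, R)` (if `κ (y+1) = κ y` and `0 < x y` then
`0 < x (y+1)` by `inc`; otherwise `aa y ≤ κ y + 1 ≤ κ (y+1)`), so `{y < R : κ y ≤ c}` and
`{y < R : aa y ≤ c}` are initial segments; this gives 1. 2: `κ t = c ∧ 0 < x t` iff `κ t ≤ c < aa t`.
3: `κ ≤ aa`. By `inc`: `x t + (t' - t) ≤ x t'` for `ac ≤ t ≤ t' < sc`. 4, 5: if `sc < R` and `ac < sc`, the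
row `b = sc - 1` has `b + 1 < R`, so `x b < μ` and `x t + sc ≤ μ + t`; hence no row is counted in
`mv κ x ν c sc` and `va c sc = μ - 0 - 0`. Second half of 5: `x t ≥ x ac + (t - ac) ≥ 1 + t - ac`.
6: `st κ c y = #{z < y : κ z ≤ c} = sc`; `va c y = μ - (y - sc) - #{t ∈ [ac, sc) : μ + t < x t + y}`,
the last number is at most `sc - ac`: first inequality. If `ac + μ ≤ y` all `t ∈ [ac, sc)` are counted
(`x t ≥ 1 + t - ac`), so `va = 0`. 7: the count at `y + 1` is the count at `y` plus the number `e` of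
the `t` with `μ + t = x t + y`; the subtraction stays honest as the count at `y + 1` is at most `sc - ac`
and `y < ac + μ`. If `va c y = 0` then `ac + μ ≤ y`, all `t` are counted already at `y`, `e = 0`. -/
def GoalH1 : Prop := ∀ (μ R N : ℕ) (κ x : ℕ → ℕ), 1 ≤ μ → μ + 2 ≤ R → Play μ R N κ x →
  (∀ c, ∀ y < R, (κ y ≤ c ↔ y < sc R κ c) ∧ (aa κ x y ≤ c ↔ y < ac R κ x c)) ∧
  (∀ c, ∀ t < R, (κ t = c ∧ 0 < x t) ↔ (ac R κ x c ≤ t ∧ t < sc R κ c)) ∧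
  (∀ c, ac R κ x c ≤ sc R κ c) ∧
  (∀ c, sc R κ c < R → va μ R κ x c (sc R κ c) = μ) ∧
  (∀ c t, ac R κ x c ≤ t → t < sc R κ c →
    (sc R κ c < R → x t + sc R κ c ≤ μ + t) ∧ R ≤ U μ R x t + ac R κ x c + μ) ∧
  (∀ y < R, ∀ c < κ y, st κ c y = sc R κ c ∧ sc R κ c ≤ y ∧
    ac R κ x c + μ ≤ va μ R κ x c y + y ∧ (0 < va μ R κ x c y ↔ y < ac R κ x c + μ)) ∧
  (∀ y, y + 1 < R → ∀ c < κ y,
    (0 < va μ R κ x c y → va μ R κ x c (y + 1) + 1 +
      ((range y).filter (fun t => κ t = c ∧ 0 < x t ∧ μ + t = x t + y)).card = va μ R κ x c y) ∧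
    (va μ R κ x c y = 0 → va μ R κ x c (y + 1) = 0 ∧
      ((range y).filter (fun t => κ t = c ∧ 0 < x t ∧ μ + t = x t + y)).card = 0))

/-- H2 (what one point gives). Assume H1. For the first part, induction on `y` downwards, for
`c < κ y` and `y ≤ ac + μ` (the boundary row `y = ac + μ` included, where both sides are `T (R-1-y)`:
`va = 0`, all later values are `0`, and `U t ≥ R - ac - μ > R - 1 - y` for all `t`), `y ≤ R - 1`
(start `y = R - 1`: `T 0 = 0`, no `U`, and `ac + μ > R - 1` makes `R - 1 - μ - ac = 0`). Step: with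
`w = R - 1 - y ≥ 1`, `va (y+1) = va y - 1 - e`, `e = #{t : U t = w}` (`U t = w` iff `x t + y = t + μ`), so the
sum from `y` is `va y + w * va (y+1) + T (..) - T (w-1) - S' = (w+1) * va y - T w - (S' + w * e) + T (..)`.
Second part: 0 for ever. Third part (total): rows `z < ac`: `va c z = na z` (if `κ z = c`, then
`x z = 0`, and `na z ≤ x z`), sum `T (ac + μ - R)` (natural subtraction). If `sc < R` use part 1 at `y = sc`
(`va = μ`, `U t ≤ R - 1 - sc` for all `t ∈ [ac, sc)` by H1.5) and `(x t : ℤ) - U t = t + 1 + μ - R`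
(honest since `na t ≤ x t`); `T (ac+μ-R) + T (R-1-μ-ac)` is the polynomial `(ac-J)(ac-J-1)/2`, and the
total is `T μ` by algebra. If `sc = R` (never old): `x (R-1) = μ` (if `ac < R`) and `inc`, `nat` force
`x t = na t` for `ac ≤ t < R`; the total is `∑ na = T μ`. -/
def GoalH2 : Prop := ∀ (μ R N : ℕ) (κ x : ℕ → ℕ), 1 ≤ μ → μ + 2 ≤ R → Play μ R N κ x →
  (∀ y < R, ∀ c < κ y, 0 < va μ R κ x c y →
    ∑ z ∈ Ico y R, va μ R κ x c z + T (R - 1 - y) +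
      ∑ t ∈ (range y).filter (fun t => κ t = c ∧ 0 < x t ∧ U μ R x t ≤ R - 1 - y), U μ R x t =
    (R - y) * va μ R κ x c y + T (R - 1 - μ - ac R κ x c)) ∧
  (∀ y < R, ∀ c < κ y, va μ R κ x c y = 0 → ∑ z ∈ Ico y R, va μ R κ x c z = 0) ∧
  (∀ c < N, ∑ z ∈ range R, va μ R κ x c z = T μ) ∧
  ∑ z ∈ range R, lz μ R N κ x z = N * T μ

/-- H3 (the identity). Assume H1, H2. Let `rem c = T μ - ∑_{z < y} va c z`. For `c < κ y` this is the
sum of H2 from `y` on (for dead points everything is `0`, also the `U`-sum: `U t ≥ R - ac - μ > w`); for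
`κ y < c < N` it is `T μ - T (y + μ - R) = (w+1) * na y + T w`; summing,
`N * T μ - ∑_{z<y} lz z = (w+1) * lz y - (oo - f) * T w + Dd - Sd + rk`, `rk = rem (κ y) - (w+1) * x y`.
`rk ≤ T w` since `va (κ y) z ≥ na z`; `rk ≥ - (w+1) * μ` since `rem ≥ 0`; if `J < ac (κ y)` then for
`ac ≤ z < y` we have `x z - na z ≤ x y - na y =: u` and `rk ≥ T w - (w + 1 + k) * u` with `k = y - ac`
(if `x y = 0` then `y = J`, `u = 0`, `rk = T μ = T w`). For an exact play the left side is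
`(w+1)(y+1) + T w - (T R - N * T μ)` and `lz y = y + 1`. -/
def GoalH3 : Prop := ∀ (μ R N : ℕ) (κ x : ℕ → ℕ) (y : ℕ), 1 ≤ μ → μ + 2 ≤ R → Play μ R N κ x →
  Exact μ R N κ x y → R ≤ y + 1 + μ →
  ((oo μ R κ x y : ℤ) - (N - 1 - κ y : ℕ)) * T (R - 1 - y) ≤
      Dd μ R κ x y + ((T R : ℤ) - N * T μ) ∧
  (R - 1 - μ < ac R κ x (κ y) →
    (Dd μ R κ x y : ℤ) - Sd μ R κ x y + ((T R : ℤ) - N * T μ) -
        (R - y + (y - ac R κ x (κ y)) : ℕ) * (x y - na μ R y : ℕ) ≤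
      ((oo μ R κ x y : ℤ) - (N - 1 - κ y : ℕ)) * T (R - 1 - y)) ∧
  (Dd μ R κ x y : ℤ) - Sd μ R κ x y + ((T R : ℤ) - N * T μ) - T (R - 1 - y) - (R - y : ℕ) * μ ≤
      ((oo μ R κ x y : ℤ) - (N - 1 - κ y : ℕ)) * T (R - 1 - y)

/-- H4 (loads of consecutive rows). Assume H1. `∑_{c < κ y} va c (y+1) + oo y + sk y = ∑_{c < κ y} va c y`
by H1.7 (`sk y` is the sum over `c` of the numbers there); a point `κ y ≤ c < κ (y+1)` has `sc = y + 1`
and gives `μ` (H1.4); `c = κ (y+1)` gives `x (y+1)`, later ones `na (y+1)`. -/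
def GoalH4 : Prop := ∀ (μ R N : ℕ) (κ x : ℕ → ℕ), 1 ≤ μ → μ + 2 ≤ R → Play μ R N κ x →
  ∀ y, y + 1 < R →
  (κ y < N → κ (y + 1) < N →
    lz μ R N κ x (y + 1) + x y + (N - 1 - κ y) * na μ R y + oo μ R κ x y + sk μ κ x y =
      lz μ R N κ x y + (κ (y + 1) - κ y) * μ + x (y + 1) + (N - 1 - κ (y + 1)) * na μ R (y + 1)) ∧
  (κ y < N → κ (y + 1) = N →
    lz μ R N κ x (y + 1) + x y + (N - 1 - κ y) * na μ R y + oo μ R κ x y + sk μ κ x y =
      lz μ R N κ x y + (N - κ y) * μ) ∧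
  (κ y = N → lz μ R N κ x (y + 1) + oo μ R κ x y + sk μ κ x y = lz μ R N κ x y) ∧
  (κ y < N →
    bb μ R N κ x y + x y + (N - 1 - κ y) * na μ R y + oo μ R κ x y + sk μ κ x y =
      lz μ R N κ x y + nx μ R x y + (N - 1 - κ y) * na μ R (y + 1)) ∧
  (κ y < N → y + 2 = R → lz μ R N κ x (y + 1) = bb μ R N κ x y)

/-- H5 (the greedy play exists). Induction on the number of rows (values `va c z`, `lz z` for `z < L`
only depend on `κ, x` on `[0, L)`, and `va c L` for `c < κ (L-1)` too, if `κ L ≥ κ (L-1)`). Row 0: `κ = 0, x = 1`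
if `μ ≥ 2`; `κ = 1, x = 0` if `μ = 1`. Step from `y` to `y + 1 ≤ R - 2`, `κ y < N` (if `κ y = N`: `κ = N, x = 0`):
`S = ∑_{c < κ y} va c (y+1)`, `a = na (y+1) ≤ μ - 1`, `nx ≤ μ`. If `bb = S + (N-1-κ) * a + nx ≥ y + 2`: take
`(κ, nx)` if `nx < μ`, otherwise `κ + 1` and `x = a` (`0` if `κ + 1 = N`); the load is `bb` in all cases.
If `bb < y + 2`: `X = y + 2 - S - (N-1-κ) * a > nx`. If `X < μ`: `(κ, X)`, load `y + 2`. If `X ≥ μ`:
`j = (X - a) / (μ - a) ≥ 1`, so `a ≤ X - j (μ - a) < μ`; if `κ + j < N` take `κ + j` and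
`x = X - j (μ - a)`, load `y + 2`; else `κ = N, x = 0`, load `S + (N - κ) * μ ≤ y + 2`. Last row:
`κ (R-1) = κ (R-2)`, `x (R-1) = μ` (`0` if `κ = N`); note `μ - 1 = na (R-2) ≤ x (R-2) < μ` if `κ < N`. -/
def GoalH5 : Prop := ∀ (μ R N : ℕ), 1 ≤ μ → μ + 2 ≤ R → 1 ≤ N →
  ∃ κ x : ℕ → ℕ, Play μ R N κ x ∧ Greedy μ R N κ x

/-- H6 (before the zone). Assume H1, H4. (a) Old points alive at `y` have `y < ac + μ`. Those with
`2 (ac + μ - y) ≥ μ` give `2 va ≥ μ` to the row `y` (H1.6), so their number `n1` has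
`μ n1 ≤ 2 (y+1)`. The others: let `y' = y - (μ+1)/2 ≥ ac`; they are old at `y'`, or `c = κ y'`; the old ones
give to `y'` at least `ac + μ - y' > (μ+1)/2`, so `μ n2 ≤ 2 (y'+1) + μ`. (b) `na = 0`, `va ≤ μ`, `x y < μ`.
(c) H4, `na (y+1) = 0`. (d) By (c), (b): `Q = κ μ + x` grows in each row by `1 + oo + sk > (y+1)/μ`, so by
more than `l R / (2μ) ≥ μ` in `l` rows, and `x < μ`. (e) `z = J - X`; `μ aa J ≤ Q J - x J + μ`... so
`μ (aa J - aa z) ≤ Q J - Q z + μ`, `np X = aa J - aa z` (`ac c ≤ z` iff `c < aa z`; note `aa J ≤ N`);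
`Q J - Q z = ∑ (1 + oo + sk)`, `∑ oo ≤ X (4R/μ + 1)` by (a), `∑_{y ∈ [z,J)} sk y ≤ X + μ` (every `t` is
counted for at most one `y = μ + t - x t ≤ μ + t - 1`, so `t > z - μ`). Total
`μ np ≤ X (3 + 4R/μ) + 2μ`. -/
def GoalH6 : Prop := ∀ (μ R N : ℕ) (κ x : ℕ → ℕ) (Y : ℕ), 1 ≤ μ → μ + 2 ≤ R → Play μ R N κ x →
  Exact μ R N κ x Y →
  (∀ y ≤ Y, μ * oo μ R κ x y ≤ 4 * (y + 1) + μ) ∧
  (∀ y ≤ Y, y + 1 + μ ≤ R → y + 1 < μ * (oo μ R κ x y + 1)) ∧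
  (∀ y < Y, y + 2 + μ ≤ R →
    κ (y + 1) * μ + x (y + 1) = κ y * μ + x y + 1 + oo μ R κ x y + sk μ κ x y) ∧
  (∀ l z, R ≤ 2 * (z + 1) → z + l + 1 + μ ≤ R → z + l ≤ Y → 2 * μ ^ 2 ≤ l * R →
    κ z < κ (z + l)) ∧
  (R ≤ Y + 1 + μ → 3 * μ ≤ R → ∀ X, X + 2 * μ + 1 ≤ R →
    μ ^ 2 * np μ R N κ x X ≤ 3 * μ ^ 2 + 5 * X * R)

/-- H7 (deaths inside the zone). Assume H1, H6. `l ≤ w ≤ μ`. For `k` with `(k+2) l ≤ w` let
`z = J - (k+1) l ≥ R/2` and `c_k = κ z`. By H6(d) `κ (z-l) < c_k < κ (z+l)`, so `z - l < ac (c_k)`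
(`aa (z-l) ≤ κ (z-l) + 1 ≤ c_k`), `ac ≤ sc ≤ z + l = J - k l`. So `c_k` is old and alive at `y`
(`ac + μ > J - w + μ = y`) and gives `T (J - ac) ≥ T (k l)`; the `c_k` are distinct. With
`K = w / l - 2 ≥ 12`, `w < (K+3) l`: `12 l Dd ≥ 12 l ∑_{k ≤ K} (k l)² / 2 = l³ K (K+1) (2K+1) ≥ l³ (K+3)³ ≥ w³`. -/
def GoalH7 : Prop := ∀ (μ R N l y w : ℕ) (κ x : ℕ → ℕ), 1 ≤ μ → 1 ≤ l → 2 * μ ^ 2 ≤ l * R →
  100 * μ ≤ R → Play μ R N κ x → Exact μ R N κ x y → R ≤ y + 1 + μ → w = R - 1 - y →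
  14 * l ≤ w → w ^ 3 ≤ 12 * l * Dd μ R κ x y

/-- H8 (few points become old in the zone). Assume H1, H3. Let `X = R - 1 - z`, `w = R - 1 - y ≥ 1`.
(i) `Dd y ≤ T w * np w`: an alive `c` with `ac < J` has `J - ac < w` and is counted in `np w`.
(ii) The `oo z + (κ y - κ z)` points alive at `z` or becoming old in `(z, y]` are alive at `y` or dead at
`y` (`ac + w ≤ J`) with `J < ac + X` (alive at `z`: `z < ac + μ`; `c > κ z`: `ac > z ≥ J`, not dead; `c = κ z`: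
`x ac + sc ≤ μ + ac`, `sc > z`): their number is `≤ oo y + B`, `B + np w ≤ np X`. (iii) With
`g = oo + κ - (N-1)`: `g y - g z + (B) ≥ 2 (κ y - κ z)`, `g z ≥ 0`, and `g y * T w ≤ T w * np w + W⁺` by H3. -/
def GoalH8 : Prop := ∀ (μ R N : ℕ) (κ x : ℕ → ℕ) (y z : ℕ), 1 ≤ μ → μ + 2 ≤ R →
  Play μ R N κ x → Exact μ R N κ x y → y + 2 ≤ R → z ≤ y → R ≤ z + 1 + μ →
  N - 1 - κ z ≤ oo μ R κ x z →
  2 * T (R - 1 - y) * (κ y - κ z) ≤
    T (R - 1 - y) * np μ R N κ x (R - 1 - z) + (T R - N * T μ)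

/-- H9 (few pending skips of the zone). Assume H1, H4. For `t > J`: `U t = x t - na t`; for two
consecutive moving rows `t, t+1 ≤ y` of a point: `U (t+1) = U t + oo t + sk t - f t` (H4, exact rows), so
`24 l (U (t+1) - U t) ≥ R - 1 - t`. Let `B_c` be the rows `t` of the point `c` that are counted,
`q = #B_c ≥ 1`, `X = R - 1 - max B_c > w`: `(q - 1) X ≤ 24 l (w - 1)`. So `q ≤ 24 l`. With `j = κ y - 1 - c`
the second hypothesis at `z = max B_c` (`κ z = c`) gives `l (j - 1) ≤ 151 X`, so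
`(q - 1)(j - 1) ≤ 3624 w` if `j ≥ 2`. Sum over `0 ≤ j < κ y - κ (J+1) ≤ κ y - κ J < 2 ^ L`:
`2 * 24 l + #j + 3624 w * (1 + 1/2 + … + 1/(#j - 2))`, and the harmonic sum up to `2 ^ L - 1` is `≤ L`. -/
def GoalH9 : Prop := ∀ (μ R N : ℕ) (κ x : ℕ → ℕ) (l L y : ℕ), 1 ≤ μ → μ + 2 ≤ R → 1 ≤ l →
  Play μ R N κ x → Exact μ R N κ x y → R ≤ y + 1 + μ → y + 2 ≤ R →
  (∀ z < y, R ≤ z + 1 + μ →
    (R - 1 - z) + 24 * l * (N - 1 - κ z) ≤ 24 * l * oo μ R κ x z) →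
  (∀ z ≤ y, R ≤ z + 1 + μ → l * (κ y - κ z) ≤ 2 * l + 151 * (R - 1 - z)) →
  κ y - κ (R - 1 - μ) < 2 ^ L →
  ((range y).filter (fun t => R - 1 - μ < t ∧ κ t < κ y ∧ 0 < x t ∧ 0 < U μ R x t ∧
    U μ R x t ≤ R - 1 - y)).card ≤ (κ y - κ (R - 1 - μ)) + 48 * l + 3624 * (R - 1 - y) * L

/-- H10a (starts and pending skips). Assume H1, H6, H8, H9. `w = R - 1 - y ≤ μ`, `1 ≤ w`. For `J ≤ z ≤ y`, `X = R - 1 - z`:
H6(e) times `l` gives `l np X ≤ 3 l + 300 X` (`X ≤ μ`, `X + 2μ + 1 ≤ R`); `l W⁺ ≤ w³ / 48 ≤ X * T w` for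
`W = T R - N T μ` (`2 T w ≥ w²`); H8 (its hypothesis follows from `ih` for `z < y`; `z = y` is trivial):
`2 l (κ y - κ z) ≤ 3 l + 301 X`. So the second hypothesis of H9 holds, `l (κ y - κ J) ≤ 2 l + 151 μ < 2 ^ L * l`, and H9
gives the second statement. Third: the rows `t ≤ J` counted in `Sd` have `U t = J - t + x t ≤ w`, so `J - w < t`: at
most `w`; every summand is `≤ w`; so `Sd ≤ w * (w + q)` and
`96 l (w + q) ≤ 96 (l w + 2l + 151 μ + 48 l² + 3624 l w L) ≤ w²` (`L ≥ 1`, `w ≥ 1500000 l L`, `w² ≥ 61000 μ`). -/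
def GoalH10a : Prop := ∀ (μ R N l L y : ℕ) (κ x : ℕ → ℕ), Zon μ R N l L κ x y →
  (∀ z ≤ y, R ≤ z + 1 + μ → l * (κ y - κ z) ≤ 2 * l + 151 * (R - 1 - z)) ∧
  l * ((range y).filter (fun t => R - 1 - μ < t ∧ κ t < κ y ∧ 0 < x t ∧ 0 < U μ R x t ∧
    U μ R x t ≤ R - 1 - y)).card ≤ 151 * μ + 2 * l + 48 * l ^ 2 + 3624 * l * (R - 1 - y) * L ∧
  96 * l * Sd μ R κ x y ≤ (R - 1 - y) ^ 3

/-- H10b (the moving point). Assume H1, H4. First: `u = x y - na y < w`: `x y < μ` and `na y = μ - w`, `w ≥ 1`. If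
`x y = 0` then `aa y = κ y`, so `y < ac (κ y)` and `y - ac = 0`. If `x y > 0`: on `ac ≤ t < y` the point `κ y` is moving, and by
H4 for the exact rows `t, t + 1` (`t ≥ J`, `na (t+1) = na t + 1`): `x (t+1) - na (t+1) = x t - na t + oo t + sk t - f t`, and
`24 l (oo t - f t) ≥ R - 1 - t ≥ w` by `ih`: so `24 l u ≥ (y - ac) w`. Second: if `ac (κ y) ≤ J` then
`κ J < aa J`.. gives `κ J = κ y`, `0 < x J`, `κ` is constant on `[J, y]`; suppose `2 w < μ`. As before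
`x (z+1) = x z + 1 + oo + sk - f ≥ x z + 1 + (R - 1 - z) / (24 l)` for `J ≤ z < y`; for the at least `μ / 2` rows `z` with
`2 (R - 1 - z) ≥ μ` (all `< y`) the last term is `≥ μ / (48 l) ≥ 1` (`μ ≥ w ≥ 1500000 l`), so `x y ≥ μ`: impossible. -/
def GoalH10b : Prop := ∀ (μ R N l L y : ℕ) (κ x : ℕ → ℕ), Zon μ R N l L κ x y →
  (R - 1 - μ < ac R κ x (κ y) →
    (y - ac R κ x (κ y)) * (R - 1 - y) ≤ 24 * l * (x y - na μ R y) ∧
    x y - na μ R y < R - 1 - y) ∧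
  (ac R κ x (κ y) ≤ R - 1 - μ → μ ≤ 2 * (R - 1 - y))

/-- H10 (the zone). Assume H1, H3, H7, H10a, H10b. `w = R - 1 - y ≤ μ`, `W = T R - N * T μ`. By H7 `12 l Dd ≥ w³`, so
`|W| ≤ Dd / 4` and, by H10a, `Sd ≤ Dd / 8`. If `J < ac (κ y)`: with `u = x y - na y`, `k = y - ac` H10b gives `u < w`, `k ≤ 24 l`
(`k w ≤ 24 l u < 24 l w`), and `(w + 1 + k) u ≤ Dd / 8` as `96 l (w + 1 + 24 l) ≤ w²`; H3(2):
`(oo - f) * T w ≥ Dd / 2 ≥ w³ / (24 l) ≥ w * T w / (24 l)` (`T w ≤ w²`). If `ac (κ y) ≤ J`: `μ ≤ 2 w`, and H3(3) with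
`T w + (w+1) μ ≤ 5 w² ≤ Dd / 8` (`480 l ≤ w`). This is the first statement. If `2 w < μ`, then `J < ac`, `k ≤ 24 l`, and
`Pn ≤ w + q + k`: rows `t ≤ J` (`U t = J - t + x t ≤ w`, at most `w`); rows `t > J` of old points (`q` of H10a); rows of
`κ y` (`ac ≤ t < y`); `72 l² + 2 l ≤ 3 l w`. -/
def GoalH10 : Prop := ∀ (μ R N l L y : ℕ) (κ x : ℕ → ℕ), Zon μ R N l L κ x y →
  (R - 1 - y) + 24 * l * (N - 1 - κ y) ≤ 24 * l * oo μ R κ x y ∧
  (2 * (R - 1 - y) < μ → R - 1 - μ < ac R κ x (κ y) ∧ y ≤ ac R κ x (κ y) + 24 * l ∧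
    l * Pn μ R x y ≤ 151 * μ + 3627 * l * (R - 1 - y) * L)

/-- H11 (the last rows, too few conditions). Assume H1, H2, H3, H4. Write `w1 = R - 1 - y`. Induction: for
`y ≤ y' ≤ R - 2` either `κ` has reached `N` at some row `r ≤ y'` with `lz r ≤ r + 1`, or `Exact y'`.
Step from an exact `y'`, `y' + 2 < R`: by H3(2) at `y'` (`J < ac (κ y')`: as `κ y' = κ y`, or `ac > y`),
`w' = R - 1 - y' ≤ w1`, `Sd y' ≤ w' (Pn y + w1)`, `y' - ac ≤ k + w1`, `x - na ≤ w'`: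
`(oo - f) T w' ≥ W - w' (Pn + w1) - (w' + 1 + k + w1) w' > 0`. So `f < oo` and H4 gives
`bb y' = lz y' + 1 + f - oo - sk ≤ y' + 2` (`na (y'+1) = na y' + 1`, `nx = x + 1`, also if `x y' = 0`, `y' = J`),
hence by the greedy rule `lz (y'+1) = y' + 2`, or `κ (y'+1) = N` and `lz (y'+1) ≤ y' + 2`. After `κ = N` loads do
not increase (H4(3)). If `N` is never reached: rows `≤ R - 2` exact, last row by the total (H2):
`lz (R-1) = N * T μ - T (R-1) < R`. -/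
def GoalH11 : Prop := ∀ (μ R N k : ℕ) (κ x : ℕ → ℕ) (y : ℕ), 1 ≤ μ → μ + 2 ≤ R →
  Play μ R N κ x → Greedy μ R N κ x → Exact μ R N κ x y → R ≤ y + 1 + μ → y + 2 ≤ R →
  R - 1 - μ < ac R κ x (κ y) → y ≤ ac R κ x (κ y) + k →
  N * T μ + (R - 1 - y) * (Pn μ R x y + k + 5 * (R - 1 - y) + 2) < T R →
  ∀ z < R, lz μ R N κ x z ≤ z + 1

/-- H12 (the last rows, too many conditions). Assume H1, H2, H4. `h z = lz z - (z+1)`,
`F z = f - oo z`; for `z ≥ J`, `κ z < N`: `bb z - (z + 2) = h z + F z - sk z`. Rows `≤ R - 2` with `κ < N`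
have `h ≥ 0` (greedy rule). NA row: `bb z ≥ z + 2` (then `lz (z+1) = bb z`). In consecutive NA
rows `κ` jumps at most once before the row `R - 1` (by one, then `x` is natural and `nx < μ`), and
`F` changes by (deaths) `- 2` (jump): `F j ≥ F j0 - 2`. Suppose some row has `lz z < z + 1`.
Let `r` be the first row `≤ R - 2` with `κ r = N`, or `r = R - 1` if there is none. Claim
`bb (r-1) ≤ r + 1`: if `r = R - 1` this is `lz (R-1) = bb (R-2) < R` (the only row which can fail);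
if `κ r = N` with `bb (r-1) > r + 1`, row `r` is NA, `κ (r-1) = N - 1`, `F (r-1) ≤ 0` so `h (r-1) > 0`; let
`y0` be the last row `< r` with `h = 0` (`≥ y`): `F y0 ≥ 1`, so `κ y0 ≤ N - 2`, and all rows in `(y0, r]` are
NA: at most one jump, contradiction. For `y < z < r` with `h z > 0`: `e` = first row `> z` with
`bb (e-1) ≤ e + 1`, `y0` = last row `< z` with `h = 0`, `F y0 ≥ 1`, so `F ≥ -1` on `[y0, e)` and
`h z ≤ ∑_{z ≤ j < e} (sk j - F j) ≤ (Pn y + w1) + w1`, `w1 = R - 1 - y` (a `t` is counted in one `sk j`,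
`U t = R - 1 - j`). So `∑_{z<r} h z ≤ w1 (Pn + 2 w1)`, and `lz z ≤ z + 1` for `z ≥ r` (loads do not increase
after `κ = N`), so `N * T μ = ∑ lz ≤ T R + w1 (Pn + 2 w1)`, contradiction. -/
def GoalH12 : Prop := ∀ (μ R N : ℕ) (κ x : ℕ → ℕ) (y : ℕ), 1 ≤ μ → μ + 2 ≤ R →
  Play μ R N κ x → Greedy μ R N κ x → Exact μ R N κ x y → R ≤ y + 1 + μ → y + 2 ≤ R →
  T R + (R - 1 - y) * (Pn μ R x y + 2 * (R - 1 - y)) < N * T μ →
  ∀ z < R, z + 1 ≤ lz μ R N κ x z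

/-- H13 (prices with natural values). Extend the proof of packet B
(`Pool.Agent.Helper53.Gm.B`, theorem `PkB.goalB`, 403 lines; its lemmas can be reused). A play is a
`Run μ R (fun _ => μ) κ x`. For the rows `z` with `κ z ≥ c` take the same `U` as there. For a row `z` with
`κ z < c` (value `na z = μ - (R - 1 - z) > 0`) take `U = {z' : z < z' < R}`, `card U + na z ≤ μ`: for `z' < z` all
steps between `z'` and `z` are `≥ u (κ s) > 2 (4μ+4) u c = ε c` (`κ s ≤ κ z < c`), so `V z' < V z`. For the other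
rows of `c`, the rows `z'` with `κ z' < c` are again lower (as in B). -/
def GoalH13 : Prop := ∀ (μ R N : ℕ) (κ x : ℕ → ℕ), 1 ≤ μ → μ + 2 ≤ R → Play μ R N κ x →
  ∃ π ε : ℕ → ℤ, Pri R (fun _ => μ) (va μ R κ x) π ε N

/-- H14 (from plays to the triangle). Assume `Gm.GoalA` (theorem `Gm.PkA.goalA`), H2, H13.
As `Gm.GoalF1`, `Gm.GoalF2` (files Helper58/Gm/F1.lean, Helper49/Gm/F2.lean), only simpler: `p = 0`,
`R = d + 1`, `s = 0`; the row `b` of `triD 0 d` (the cells `(a, b)`) has `d + 1 - b` cells and is played at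
`y = d - b`: `n' c b = va c (d - b)`, `π' b = π (d - b)`, `ε' = - ε` satisfy `Pri` as well. Second half: the
cells `(a, b)` with `a < lz (d - b)` form `D''` with `card D'' = ∑ lz = N * T μ = card (rows ..)` (H2), `Inj` by A. -/
def GoalH14 : Prop := ∀ (μ d N : ℕ) (κ x : ℕ → ℕ), 1 ≤ μ → μ + 1 ≤ d → Play μ (d + 1) N κ x →
  ((∀ z < d + 1, z + 1 ≤ lz μ (d + 1) N κ x z) →
    Pool.Agent.Lead.Sh.Inj (Pool.Agent.Lead.Sh.triD 0 d)
      (Pool.Agent.Lead.Sh.rows (fun _ => μ) (range N))) ∧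
  ((∀ z < d + 1, lz μ (d + 1) N κ x z ≤ z + 1) →
    Pool.Agent.Lead.Rw.Ind' (Pool.Agent.Lead.Sh.triD 0 d)
      (Pool.Agent.Lead.Sh.rows (fun _ => μ) (range N)))

/-- H15 (the game theorem). Assume H2, H4, H5, H10, H11, H12. Take the greedy play. (1) For `y + 2 ≤ J + 1`
and `Exact y`: H4 gives `bb y ≤ y + 2` (`na = 0`, `nx ≤ x + 1`; if `x y = 0` then `nx = 0`), so the greedy rule gives
`Exact (y+1)` or `κ (y+1) = N` with `lz (y+1) ≤ y + 2`. (2) The same for `J ≤ y`, `R - 1 - y > w`, by H10 at `y`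
(`f ≤ oo`, so `bb y = lz y + 1 + f - oo - sk ≤ y + 2`). (3) If `κ` reaches `N` at a row `r` with `lz r ≤ r + 1`
after exact rows: loads do not increase afterwards, all loads are `≤ z + 1` and `N * T μ ≤ T R`: first case.
(4) Otherwise `Exact y` with `R - 1 - y = w`, and H10 gives the hypotheses of H11 (`k = 24 l`) or H12:
`l w (Pn + 24 l + 5 w + 2) ≤ w (151 μ + 3634 l w L) < w (200 μ + 3700 l w L) ≤ l |W|`. -/
def GoalH15 : Prop := ∀ (μ R N l L w : ℕ), 1 ≤ μ → 1 ≤ N → 1 ≤ l → 2 * μ ^ 2 ≤ l * R →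
  l * R ≤ 60 * μ ^ 2 → 100 * μ ≤ R → 151 * μ + 2 * l < 2 ^ L * l → 1500000 * l * L ≤ w →
  61000 * μ ≤ w ^ 2 → 2 * w < μ → 48 * l * |(T R : ℤ) - N * T μ| ≤ (w : ℤ) ^ 3 →
  (w : ℤ) * (200 * μ + 3700 * l * w * L) ≤ l * |(T R : ℤ) - N * T μ| →
  ∃ κ x : ℕ → ℕ, Play μ R N κ x ∧
    ((N * T μ ≤ T R ∧ ∀ z < R, lz μ R N κ x z ≤ z + 1) ∨
      (T R ≤ N * T μ ∧ ∀ z < R, z + 1 ≤ lz μ R N κ x z))

end Pool.Agent.Helper43.Hw
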