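import Mathlib
import Pool.Agent.Helper43.Hw.Goals
import Pool.Agent.Helper43.Gm.Goals2
import Pool.Agent.Helper43.Gx.Goals

/-!
Statements of the packets, second part (MP_d3128a_ag, equal multiplicities): the window theorem and
the density theorem.
-/

set_option autoImplicit false

namespace Pool.Agent.Helper43.Hw

open Finset

/-- for `n` general points, the space of the forms of degree `d` with multiplicity `≥ m` at the points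
has the expected dimension -/
def NS (n m d : ℕ) : Prop :=
  ∃ G : MvPolynomial (Fin n × Fin 3) ℂ, G ≠ 0 ∧
    ∀ P : Fin n → Fin 3 → ℂ, (∀ i, P i ≠ 0) →
      MvPolynomial.eval (fun ij : Fin n × Fin 3 => P ij.1 ij.2) G ≠ 0 →
      (Module.finrank ℂ
        (↥(MvPolynomial.homogeneousSubmodule (Fin 3) ℂ d ⊓
          ⨅ i : Fin n, Submodule.restrictScalars ℂ
            ((Ideal.span {g : MvPolynomial (Fin 3) ℂ |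
                g.IsHomogeneous 1 ∧ MvPolynomial.eval (P i) g = 0}) ^ m
              : Ideal (MvPolynomial (Fin 3) ℂ)))) : ℤ)
        = max ((Nat.choose (d + 2) 2 : ℤ) - n * (Nat.choose (m + 1) 2 : ℤ)) 0

/-- the size of the window -/
noncomputable def win (n m : ℕ) : ℝ :=
  (m : ℝ) ^ 2 / n * (1 + Real.log n) ^ 3 + Real.sqrt (m * n)

/-- the window theorem for a predicate `P n m d` -/
def Win (P : ℕ → ℕ → ℕ → Prop) : Prop :=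
  ∃ C : ℝ, 0 < C ∧ ∀ n m d : ℕ, 1 ≤ n → 1 ≤ m →
    C * win n m ≤ |((d + 2).choose 2 : ℝ) - n * ((m + 1).choose 2 : ℝ)| → P n m d

/-- almost all `m`, for every large `n` which is not a square -/
def Almost (P : ℕ → ℕ → ℕ → Prop) : Prop :=
  ∀ ε : ℝ, 0 < ε → ∃ n0 : ℕ, ∀ n : ℕ, n0 ≤ n → ¬ IsSquare n → ∀ M : ℕ,
    (n : ℝ) ^ (1 / 2 + ε) ≤ M → (M : ℝ) ≤ (n : ℝ) ^ (3 / 2 - ε) →
    (Set.ncard {m : ℕ | 1 ≤ m ∧ m ≤ M ∧ ∃ d, ¬ P n m d} : ℝ) ≤ ε * M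

/-- density one in the boxes `n ≤ X`, `m ≤ X ^ a` -/
def Dens (P : ℕ → ℕ → ℕ → Prop) : Prop :=
  ∀ a : ℝ, 1 / 2 < a → a < 3 / 2 →
    Filter.Tendsto (fun X : ℕ => (Set.ncard {p : ℕ × ℕ | 1 ≤ p.1 ∧ p.1 ≤ X ∧ 1 ≤ p.2 ∧
      (p.2 : ℝ) ≤ (X : ℝ) ^ a ∧ ∀ d, P p.1 p.2 d} : ℝ) / (X : ℝ) ^ (1 + a)) Filter.atTop (nhds 1)

/-- H16a (numbers). `C = 10 ^ 24`, `ℓ = 1 + log n ≥ 1`, `s = √n`. From `C * win < 3 m²`: `n > (C/3) ℓ³`, so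
`s > 5 * 10 ^ 11 * ℓ`; and `C √(m n) < 3 m²` with `n > C/3` gives `m > C/3`. `l = ⌊2m²/R⌋ + 1`: `2m² ≤ lR ≤ 2m² + R
≤ 31 m²`, `l ≤ 62 m / s`, `m / l ≤ R/(2m) ≤ 2 s`. `100 m ≤ R` as `R ≥ m s / 2`. `L = ⌈log₂ (302 s + 3)⌉₊ ≤ 10 ℓ`
(`151 m + 2 l ≤ (302 s + 2) l < 2^L l`). `a = max (1500000 l L, 247 √m, (48 l W)^(1/3))`, `w = ⌈a⌉₊ ≤ 2a`.
`4 a < m`: `6*10^6 l L ≤ 6*10^6 * 620 m ℓ / s ≤ m`; `988 √m ≤ m`; `64 * 48 l W ≤ 3072 * 62 m/s * 3m² ≤ m³`.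
Last inequality: `w (200 m + 3700 l w L) ≤ 400 a m + 14800 l a² L =: Q`. If `a³ = 48 l W`:
`400 a m ≤ a³/96` (as `a² ≥ 61009 m`), `14800 l L a² ≤ a³/96` (as `a ≥ 1500000 l L`), so `Q ≤ a³/48 = l W`.
If `a = 1500000 l L`: `Q / l = 6*10^8 m L + 3.33*10^16 l² L³ ≤ 6*10^9 m ℓ + 1.3*10^23 m² ℓ³/n`. If `a = 247 √m`:
`Q / l ≤ 98800 √m (m/l) + 10^9 m L ≤ 197600 √(mn) + 10^10 m ℓ`. And `m ℓ ≤ m² ℓ³/n + √(mn) = win` since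
`(m ℓ)³ = p q² ≤ (p+q)³` for `p = m² ℓ³/n`, `q = √(mn)`. So `Q / l ≤ C * win ≤ W`. -/
def GoalH16a : Prop := ∃ C : ℝ, 1 ≤ C ∧ ∀ n m R W : ℕ, 1 ≤ n → 1 ≤ m →
  C * win n m < 3 * (m : ℝ) ^ 2 → (m : ℝ) * Real.sqrt n ≤ 2 * R → (R : ℝ) ≤ 4 * m * Real.sqrt n →
  R ≤ 29 * m ^ 2 → C * win n m ≤ W → W ≤ 3 * m ^ 2 →
  ∃ l L w : ℕ, 1 ≤ l ∧ 2 * m ^ 2 ≤ l * R ∧ l * R ≤ 60 * m ^ 2 ∧ 100 * m ≤ R ∧
    151 * m + 2 * l < 2 ^ L * l ∧ 1500000 * l * L ≤ w ∧ 61000 * m ≤ w ^ 2 ∧ 2 * w < m ∧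
    48 * l * W ≤ w ^ 3 ∧ w * (200 * m + 3700 * l * w * L) ≤ l * W

/-- H16 (window theorem). `C ≥ 30` at least the constant of H16a. Let `e = choose (d+2) 2 - n * choose (m+1) 2`
(`= T R - n T m`, `R = d + 1`). If `3 m² ≤ |e|`: the third hypothesis (`2m² - m ≤ e` or `5m² - m ≤ -2e`), applied to
`m' i = if i < n then m else 0`. If `28 m² ≤ d`: the fourth. Otherwise `W = |e| < 3 m²`, `R ≤ 28 m²`,
`C * win ≤ W < 3 m²` gives `n ≥ 24` (`C m²/n < 3m²`), `R (R+1) = n m (m+1) + 2 e ∈ [(3/4) n m², 8 n m²]`, so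
`m √n ≤ 2R ≤ 8 m √n`. H16a, H15 (`N = n`, `μ = m`), H14 (`d + 1 = R ≥ 100 m`), `Rw.concl` (with `Ind'.ind`); if
`e > 0` the second alternative of H15 is impossible, if `e < 0` the first. -/
def GoalH16 : Prop := GoalH16a → GoalH15 → Pool.Agent.Helper43.Gm.GoalG2 →
  Pool.Agent.Helper43.Gx.GoalX9 → GoalH14 → Win NS

/-- H17a (points of a linear sequence near integers). Let `S` be the set, `q ≥ 1` the least integer with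
`‖q θ‖ ≤ 2δ` (distance to the nearest integer; exists by Dirichlet, or if there is none, or `2δq > 1`: the
differences of elements of `S` are `≥ q`, so `#S ≤ 2δM + 1`). Otherwise `q θ = p₀ ± β`, `η ≤ β ≤ 2δ`. For a
residue class `m = r + j q`, `0 ≤ j ≤ M/q`: `m θ + α = v ± j β` mod 1, monotone in `j`; the number of integers `p`
with a `j` such that `v ± j β ∈ [p - δ, p + δ]` is at most `(M/q) β + 2δ + 1`, and for every `p` there are at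
most `2δ/β + 1 ≤ 4δ/β` such `j`. Total `≤ q ((M/q) β + 3/2) (4δ/β) ≤ 4δM + 6δq/β ≤ 4δM + 3/η`. -/
def GoalH17a : Prop := ∀ (θ α δ η : ℝ) (M : ℕ), 0 < δ → δ < 1 / 4 → 0 < η →
  (∀ q : ℕ, 1 ≤ q → (q : ℝ) * (2 * δ) ≤ 1 → ∀ p : ℤ, η ≤ |(q : ℝ) * θ - p|) →
  (Set.ncard {m : ℕ | m < M ∧ ∃ p : ℤ, |(m : ℝ) * θ + α - p| ≤ δ} : ℝ) ≤ 4 * δ * M + 4 / η + 1

/-- H17 (almost all `m`). Assume H17a. Let `ε ≤ 1` (smaller `ε` is stronger: `ε * M` is smaller; but the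
range of `M` grows; so prove it for `ε' = min ε 1`), `δ = ε / 32`. Bad `m` (some `¬ P n m d`):
`|e| < C win`, with `r = 2d + 3`, `s = 2m + 1`: `r² - n s² = 8 e + 1 - n`, so
`|m (2√n) + √n - r| ≤ (8 C win + n) / (2 m √n) = 4C (m ℓ³/n^(3/2) + 1/√m) + √n/(2m)`. For
`ε M / 4 ≤ m ≤ M` this is `≤ 4C (n^(-ε) ℓ³ + 2/√(ε M)) + 2√n/(ε M) ≤ δ` for `n ≥ n0` (`M ≥ n^(1/2+ε)`). H17a with
`θ = 2√n`, `α = √n`, `M + 1`, `η = 2δ/(5√n)`: for `2δq ≤ 1`, `p` integer, `|4q²n - p²| ≥ 1` (`n` not a square), so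
`|2q√n - p| ≥ 1/(4q√n + 1) ≥ 1/(5q√n) ≥ η` (or `> 1`). Number of bad `m`
`≤ εM/4 + 1 + 4δ(M+1) + 10√n/δ + 1 ≤ ε M` for `n ≥ n0` (`√n ≤ n^(-ε) M`). -/
def GoalH17 : Prop := ∀ P : ℕ → ℕ → ℕ → Prop, Win P → Almost P

/-- H18 (density). Given `a` and `τ > 0` take `ε ≤ τ` with `1/2 + ε < a < 3/2 - ε`, `M = ⌊X^a⌋`. For
`εX ≤ n ≤ X`, `X` large: `n ≥ n0`, `n^(1/2+ε) ≤ X^(1/2+ε) ≤ X^a - 1 ≤ M ≤ X^a ≤ (εX)^(3/2-ε) ≤ n^(3/2-ε)`. So the number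
of bad pairs `(n, m)` in the box is at most `(εX + 1) M + (√X + 1) M + X * ε M ≤ 4 ε X M` (at most `√X`
squares). The box has `X * M` elements, `X^a - 1 < M ≤ X^a`. -/
def GoalH18 : Prop := ∀ P : ℕ → ℕ → ℕ → Prop, Almost P → Dens P

end Pool.Agent.Helper43.Hw
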