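import Mathlib
import Pool.Agent.Helper63.Hw.H1
import Pool.Agent.Helper32.Hw.H2
import Pool.Agent.Helper32.Hw.H3
import Pool.Agent.Helper62.Hw.H4
import Pool.Agent.Helper54.Hw.H5
import Pool.Agent.Helper38.Hw.H6
import Pool.Agent.Helper87.Hw.H7
import Pool.Agent.Helper79.Hw.H8
import Pool.Agent.Helper62.Hw.H9
import Pool.Agent.Helper97.Hw.H10a
import Pool.Agent.Helper61.Hw.H10b
import Pool.Agent.Helper61.Hw.H10
import Pool.Agent.Helper32.Hw.H11
import Pool.Agent.Helper62.Hw.H12
import Pool.Agent.Helper75.Hw.H13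
import Pool.Agent.Helper62.Hw.H14
import Pool.Agent.Helper32.Hw.H15
import Pool.Agent.Helper90.Hw.H16a
import Pool.Agent.Helper56.Hw.H16
import Pool.Agent.Helper19.Hw.H17a
import Pool.Agent.Helper13.Hw.H17
import Pool.Agent.Helper75.Hw.H18
import Pool.Agent.Helper43.Gm.Main
import Pool.Agent.Helper43.Gx.Main

/-!
Assembly: plane systems with general points of equal multiplicity.
-/

set_option autoImplicit false

namespace Pool.Agent.Helper43.Hw

theorem goalH2 : GoalH2 := PkH2.goalH2 PkH1.goalH1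
theorem goalH3 : GoalH3 := PkH3.goalH3 PkH1.goalH1 goalH2
theorem goalH4 : GoalH4 := PkH4.goalH4 PkH1.goalH1
theorem goalH6 : GoalH6 := PkH6.goalH6 PkH1.goalH1 goalH4
theorem goalH7 : GoalH7 := PkH7.goalH7 PkH1.goalH1 goalH6
theorem goalH8 : GoalH8 := PkH8.goalH8 PkH1.goalH1 goalH3
theorem goalH9 : GoalH9 := PkH9.goalH9 PkH1.goalH1 goalH4
theorem goalH10a : GoalH10a := PkH10a.goalH10a PkH1.goalH1 goalH6 goalH8 goalH9
theorem goalH10b : GoalH10b := PkH10b.goalH10b PkH1.goalH1 goalH4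
theorem goalH10 : GoalH10 := PkH10.goalH10 PkH1.goalH1 goalH3 goalH7 goalH10a goalH10b
theorem goalH11 : GoalH11 := PkH11.goalH11 PkH1.goalH1 goalH2 goalH3 goalH4
theorem goalH12 : GoalH12 := PkH12.goalH12 PkH1.goalH1 goalH2 goalH4
theorem goalH14 : GoalH14 := PkH14.goalH14 Pool.Agent.Helper43.Gm.PkA.goalA goalH2 PkH13.goalH13
theorem goalH15 : GoalH15 :=
  PkH15.goalH15 PkH1.goalH1 goalH2 goalH4 PkH5.goalH5 goalH10 goalH11 goalH12

/-- the window theorem for equal multiplicities -/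
theorem main_window : Win NS :=
  PkH16.goalH16 PkH16a.goalH16a goalH15 Pool.Agent.Helper43.Gm.main_all
    Pool.Agent.Helper43.Gx.main_degree goalH14

/-- almost all `m` -/
theorem main_almost : Almost NS := PkH17.goalH17 PkH17a.goalH17a NS main_window

/-- density one -/
theorem main_density : Dens NS := PkH18.goalH18 NS main_almost

end Pool.Agent.Helper43.Hw
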